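import Pool.Agent.Y535.PEG.StmB

/-! The signed number of small squares over a locally monotone arc of a simple polygon is zero. -/

set_option autoImplicit false
open Complex Set Topology Metric

namespace Pool.Agent.Y484.PEG

open Pool.Agent.H763R2 Pool.Agent.H763R2.An Pool.Agent.W675.Peg Pool.Agent.TH569.Peg
open Pool.Agent.Y535.PEG

variable {q : ℝ → ℂ}

/-- the sign changes under the passage to the other small square side -/
theorem sgn_gM (L : Loop q) {j : ℝ × ℝ → ℤ} (Sj : Sgs q j) {x y : ℝ}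
    (hz : (x, y) ∈ Zq q) (hg : gM q (x, y) ∈ Zq q) : j (x, y) + j (gM q (x, y)) = 0 := by
  obtain ⟨⟨hxy, hyx⟩, hD, hC⟩ := id hz
  simp only at hxy hyx hD hC
  obtain ⟨um, ue⟩ := pr_spec L hC
  obtain ⟨vm, ve⟩ := pr_spec L hD
  unfold gM at hg ⊢
  simp only at hg ⊢
  split_ifs at hg ⊢ with h
  · rw [Sj.rot x y y _ hz hg rfl ue]
    ring
  · have := Sj.rot _ _ x y hg hz rfl (tor_CC ve).symm
    rw [this]
    ring

open Classical in
theorem signed0 {b σ : ℝ} (T : Two q b σ) (J : Inj q) {j : ℝ × ℝ → ℤ} (Sj : Sgs q j)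
    (hM : ∀ s ∈ Icc 0 b, ∃ w, CG 0 q s w σ) :
    ∑ z ∈ (T.G.fin 3).toFinset.filter (fun z => (0 < z.1 ∧ z.1 < b) ∧ z.2 < z.1 + σ / 2), j z = 0 := by
  have b1 := T.b1
  have hmem : ∀ z, z ∈ ((T.G.fin 3).toFinset.filter
      (fun z => (0 < z.1 ∧ z.1 < b) ∧ z.2 < z.1 + σ / 2)) ↔
        z ∈ Zq q ∧ ((0 < z.1 ∧ z.1 < b) ∧ z.2 < z.1 + σ / 2) := by
    intro z
    simp only [Finset.mem_filter, Set.Finite.mem_toFinset, mem_inter_iff, mem_ofPred_eq]
    constructor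
    · rintro ⟨⟨h1, -⟩, h2⟩
      exact ⟨h1, h2⟩
    · rintro ⟨h1, h2⟩
      exact ⟨⟨h1, by rw [abs_le]; constructor <;> linarith [h2.1.1, h2.1.2]⟩, h2⟩
  have hne : ∀ z ∈ Zq q, q z.1 ≠ q z.2 := fun z hz => J _ _ hz.1.1 hz.1.2
  refine Finset.sum_involution (fun z _ => gM q z) (fun z hz => ?_) (fun z hz _ => ?_)
    (fun z hz => ?_) (fun z hz => ?_)
  · obtain ⟨h1, h2⟩ := (hmem z).1 hz
    have := (T.other hM (x := z.1) (y := z.2) h1 (hne z h1) h2.1.1 h2.1.2 h2.2).1.1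
    exact sgn_gM T.G.L Sj (x := z.1) (y := z.2) h1 this
  · obtain ⟨h1, h2⟩ := (hmem z).1 hz
    exact (T.other hM (x := z.1) (y := z.2) h1 (hne z h1) h2.1.1 h2.1.2 h2.2).2.1
  · obtain ⟨h1, h2⟩ := (hmem z).1 hz
    obtain ⟨g1, g2, g3, g4, g5⟩ :=
      (T.other hM (x := z.1) (y := z.2) h1 (hne z h1) h2.1.1 h2.1.2 h2.2).1
    exact (hmem _).2 ⟨g1, ⟨⟨g3, g4⟩, g5⟩⟩
  · obtain ⟨h1, h2⟩ := (hmem z).1 hz
    exact (T.other hM (x := z.1) (y := z.2) h1 (hne z h1) h2.1.1 h2.1.2 h2.2).2.2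

open Classical in
/-- the signed number of small squares over a locally monotone arc is zero -/
theorem t2 : S_Z → S_T2 := by
  intro SZ q b σ j T J Sj hM
  have L := T.G.L
  have b0 := T.b0
  have b1 := T.b1
  have σ0 := T.σ0
  have σ1 := T.σ1
  have S := mgc_sg L
  obtain ⟨η1, hη1, H⟩ := fin_pos (T.G.fin 3) (f := fun z => min (z.2 - z.1) (z.1 + 1 - z.2))
    (fun z hz => lt_min (by have := hz.1.1.1; linarith) (by have := hz.1.1.2; linarith))
  obtain ⟨η0, hη0, m1, m2⟩ : ∃ η0 > 0, η0 ≤ η1 ∧ η0 ≤ σ / 2 :=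
    ⟨min η1 (σ / 2), by positivity, min_le_left _ _, min_le_right _ _⟩
  refine ⟨η0, hη0, fun η h0 h1 => ?_⟩
  have gap : ∀ x y, (x, y) ∈ Zq q → |x| ≤ 3 → η < y - x := by
    intro x y hz hx
    have := H (x, y) ⟨hz, hx⟩
    simp only [lt_min_iff] at this
    linarith [this.1]
  have hGc : Continuous fun p : ℝ × ℝ => (fun x r => GG q (mgc q) x (x + r)) p.1 p.2 :=
    (GG_cont L S.cont).comp (f := fun p : ℝ × ℝ => ((p.1, p.1 + p.2) : ℝ × ℝ)) (by fun_prop)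
  have hx3 : ∀ x ∈ Icc (0:ℝ) b, |x| ≤ 3 := fun x hx => by
    rw [abs_le]; constructor <;> linarith [hx.1, hx.2]
  have hmemZ : ∀ x r, 0 < r → r < 1 → GG q (mgc q) x (x + r) = 0 → (x, x + r) ∈ Zq q :=
    fun x r hr0 hr1 h => (Zq_iff L S ⟨by simp only; linarith, by simp only; linarith⟩).1 h
  have B : Bd (fun x r => GG q (mgc q) x (x + r)) 0 b η (σ / 2) := by
    refine ⟨b0.le, by linarith, fun x hx h => ?_, fun x hx h => ?_, fun y hy h => ?_,
      fun y hy h => ?_⟩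
    · have := gap _ _ (hmemZ x η h0 (by linarith) h) (hx3 x hx)
      linarith
    · exact T.K _ _ ⟨le_rfl, by linarith⟩ (hmemZ x (σ / 2) (by linarith) (by linarith) h)
    · exact T.no0 (hmemZ 0 y (by linarith [hy.1]) (by linarith [hy.2]) h)
    · exact T.nob (hmemZ b y (by linarith [hy.1]) (by linarith [hy.2]) h)
  refine ⟨B, ?_⟩
  have hsum := SZ _ hGc ((T.G.fin 3).toFinset.image (fun z : ℝ × ℝ => ((z.1, z.2 - z.1) : ℝ × ℝ)))
    (fun z => j (z.1, z.1 + z.2)) (fun z hz => by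
      obtain ⟨w, hw, rfl⟩ := Finset.mem_image.1 hz
      have hw' : w ∈ Zq q := by
        have : w ∈ Zq q ∩ {p | |p.1| ≤ 3} := by simpa using hw
        exact this.1
      obtain ⟨r, hr, hs⟩ := Sj.loc w hw'
      refine ⟨r, hr, fun s hs1 hs2 => ?_⟩
      have := hs s hs1 hs2
      have e0 : ((w.1, w.1 + (w.2 - w.1)) : ℝ × ℝ) = w := by
        ext <;> simp
      simp only
      rw [e0]
      exact this) 0 b η (σ / 2) B (fun x hx y hy h => by
        have hz := hmemZ x y (by linarith [hy.1]) (by linarith [hy.2]) h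
        refine Finset.mem_image.2 ⟨(x, x + y), ?_, by simp⟩
        rw [Set.Finite.mem_toFinset]
        exact ⟨hz, hx3 x hx⟩)
  have hset : ((T.G.fin 3).toFinset.image (fun z : ℝ × ℝ => ((z.1, z.2 - z.1) : ℝ × ℝ))).filter
      (InR 0 b η (σ / 2)) = ((T.G.fin 3).toFinset.filter
        (fun z => (0 < z.1 ∧ z.1 < b) ∧ z.2 < z.1 + σ / 2)).image
        (fun z : ℝ × ℝ => ((z.1, z.2 - z.1) : ℝ × ℝ)) := by
    ext z
    simp only [Finset.mem_filter, Finset.mem_image]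
    constructor
    · rintro ⟨⟨w, hw, rfl⟩, ⟨g1, g2⟩, g3, g4⟩
      exact ⟨w, ⟨hw, ⟨g1, g2⟩, by simp only at g4; linarith⟩, rfl⟩
    · rintro ⟨w, ⟨hw, ⟨g1, g2⟩, g3⟩, rfl⟩
      refine ⟨⟨w, hw, rfl⟩, ⟨g1, g2⟩, ?_⟩
      rw [Set.Finite.mem_toFinset] at hw
      exact ⟨gap w.1 w.2 hw.1 hw.2, by simp only; linarith⟩
  have hval : ∑ z ∈ ((T.G.fin 3).toFinset.image (fun z : ℝ × ℝ => ((z.1, z.2 - z.1) : ℝ × ℝ))).filter
      (InR 0 b η (σ / 2)), j (z.1, z.1 + z.2) = 0 := by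
    rw [hset, Finset.sum_image (fun z _ w _ h => by
      obtain ⟨h1, h2⟩ := Prod.mk.inj h
      exact Prod.ext h1 (by linarith))]
    rw [← signed0 T J Sj hM]
    refine Finset.sum_congr rfl fun z _ => ?_
    congr 1
    ext <;> simp
  rw [hsum, hval]
  simp

end Pool.Agent.Y484.PEG
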